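import Pool.Agent.Lib.H20G.BT
import Pool.Agent.Lib.H20G.A6

set_option autoImplicit false
open MeasureTheory Filter
open scoped ENNReal

namespace Pool.Agent.Results.MP_9f8062_nt.InhomogeneousDS

/-- The set `E'_q(γ, ψ)` of the problem: the points `x` of `[0,1]` for which the distance to the
nearest integer of `x - (a + γ)/q` is at most `ψ(q)/q` for some `a` with `0 ≤ a < q` prime to `q`. -/
def E' (γ : ℝ) (ψ : ℕ → ℝ) (q : ℕ) : Set ℝ :=
  {x : ℝ | x ∈ Set.Icc (0 : ℝ) 1 ∧ ∃ a : ℕ, a < q ∧ Nat.Coprime a q ∧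
    |(x - ((a : ℝ) + γ) / (q : ℝ)) - (round (x - ((a : ℝ) + γ) / (q : ℝ)) : ℝ)| ≤ ψ q / (q : ℝ)}

/-- Points of `[0,1]` within `r` of `c` modulo one: measure at most `6 r`. -/
lemma vol_near (c r : ℝ) (hr : 0 ≤ r) :
    volume {x : ℝ | x ∈ Set.Icc (0 : ℝ) 1 ∧ |(x - c) - (round (x - c) : ℝ)| ≤ r}
      ≤ ENNReal.ofReal (6 * r) := by
  by_cases h : 1 / 2 ≤ r
  · calc volume {x : ℝ | x ∈ Set.Icc (0 : ℝ) 1 ∧ |(x - c) - (round (x - c) : ℝ)| ≤ r}
        ≤ volume (Set.Icc (0 : ℝ) 1) := measure_mono (fun x hx => hx.1)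
      _ = ENNReal.ofReal (1 - 0) := Real.volume_Icc
      _ ≤ ENNReal.ofReal (6 * r) := ENNReal.ofReal_le_ofReal (by linarith)
  · replace h := not_le.1 h
    have hsub : {x : ℝ | x ∈ Set.Icc (0 : ℝ) 1 ∧ |(x - c) - (round (x - c) : ℝ)| ≤ r} ⊆
        ⋃ j ∈ ({-1, 0, 1} : Finset ℤ),
          Set.Icc (c + ((-⌊c⌋ + j : ℤ) : ℝ) - r) (c + ((-⌊c⌋ + j : ℤ) : ℝ) + r) := by
      rintro x ⟨⟨h0, h1⟩, hx⟩
      set k : ℤ := round (x - c) with hk
      have habs := abs_le.1 hx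
      have hf1 : (⌊c⌋ : ℝ) ≤ c := Int.floor_le c
      have hf2 : c < ⌊c⌋ + 1 := Int.lt_floor_add_one c
      have hk1 : (k : ℝ) < (1 - ⌊c⌋ + 1 : ℤ) := by push_cast; linarith [habs.1]
      have hk2 : ((-⌊c⌋ - 1 - 1 : ℤ) : ℝ) < (k : ℝ) := by push_cast; linarith [habs.2]
      have hk1' : k < 1 - ⌊c⌋ + 1 := by exact_mod_cast hk1
      have hk2' : -⌊c⌋ - 1 - 1 < k := by exact_mod_cast hk2
      simp only [Set.mem_iUnion]
      refine ⟨k + ⌊c⌋, ?_, ?_⟩
      · simp only [Finset.mem_insert, Finset.mem_singleton]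
        omega
      · have : (-⌊c⌋ + (k + ⌊c⌋) : ℤ) = k := by ring
        rw [this]
        constructor <;> linarith [habs.1, habs.2]
    calc volume {x : ℝ | x ∈ Set.Icc (0 : ℝ) 1 ∧ |(x - c) - (round (x - c) : ℝ)| ≤ r}
        ≤ volume (⋃ j ∈ ({-1, 0, 1} : Finset ℤ),
          Set.Icc (c + ((-⌊c⌋ + j : ℤ) : ℝ) - r) (c + ((-⌊c⌋ + j : ℤ) : ℝ) + r)) :=
          measure_mono hsub
      _ ≤ ∑ j ∈ ({-1, 0, 1} : Finset ℤ),
          volume (Set.Icc (c + ((-⌊c⌋ + j : ℤ) : ℝ) - r) (c + ((-⌊c⌋ + j : ℤ) : ℝ) + r)) :=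
          measure_biUnion_finset_le _ _
      _ = ∑ _j ∈ ({-1, 0, 1} : Finset ℤ), ENNReal.ofReal (2 * r) := by
          refine Finset.sum_congr rfl fun j _ => ?_
          rw [Real.volume_Icc]
          congr 1
          ring
      _ = ENNReal.ofReal (6 * r) := by
          rw [Finset.sum_const]
          have : ({-1, 0, 1} : Finset ℤ).card = 3 := by decide
          rw [this, nsmul_eq_mul, ← ENNReal.ofReal_natCast, ← ENNReal.ofReal_mul (by norm_num)]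
          congr 1
          push_cast
          ring

/-- The measure of `E'_q` is at most `6 φ(q) ψ(q) / q`. -/
lemma vol_E (γ : ℝ) (ψ : ℕ → ℝ) (hψ : ∀ q, 0 ≤ ψ q) (q : ℕ) :
    volume (E' γ ψ q) ≤ ENNReal.ofReal (6 * ((Nat.totient q : ℝ) * ψ q / (q : ℝ))) := by
  have hsub : E' γ ψ q ⊆ ⋃ a ∈ (Finset.range q).filter (fun a => Nat.Coprime q a),
      {x : ℝ | x ∈ Set.Icc (0 : ℝ) 1 ∧
        |(x - ((a : ℝ) + γ) / (q : ℝ)) - (round (x - ((a : ℝ) + γ) / (q : ℝ)) : ℝ)|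
          ≤ ψ q / (q : ℝ)} := by
    rintro x ⟨hx, a, haq, hco, h⟩
    simp only [Set.mem_iUnion]
    exact ⟨a, Finset.mem_filter.2 ⟨Finset.mem_range.2 haq, hco.symm⟩, hx, h⟩
  have hr : 0 ≤ ψ q / (q : ℝ) := div_nonneg (hψ q) (Nat.cast_nonneg q)
  calc volume (E' γ ψ q) ≤ _ := measure_mono hsub
    _ ≤ ∑ a ∈ (Finset.range q).filter (fun a => Nat.Coprime q a),
        volume {x : ℝ | x ∈ Set.Icc (0 : ℝ) 1 ∧
        |(x - ((a : ℝ) + γ) / (q : ℝ)) - (round (x - ((a : ℝ) + γ) / (q : ℝ)) : ℝ)|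
          ≤ ψ q / (q : ℝ)} := measure_biUnion_finset_le _ _
    _ ≤ ∑ _a ∈ (Finset.range q).filter (fun a => Nat.Coprime q a),
        ENNReal.ofReal (6 * (ψ q / (q : ℝ))) :=
        Finset.sum_le_sum fun a _ => vol_near _ _ hr
    _ = ENNReal.ofReal (6 * ((Nat.totient q : ℝ) * ψ q / (q : ℝ))) := by
        rw [Finset.sum_const, nsmul_eq_mul, ← ENNReal.ofReal_natCast,
          ← ENNReal.ofReal_mul (Nat.cast_nonneg _)]
        congr 1
        rw [Nat.totient]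
        ring

/-- The main theorem in the notation of the frozen statement. -/
theorem core (γ : ℝ) (hγ : γ ≠ 0) (ψ : ℕ → ℝ) (hψ : ∀ q : ℕ, 0 ≤ ψ q)
    (hdiv : ¬ Summable (fun q : ℕ => (Nat.totient q : ℝ) * ψ q / (q : ℝ)))
    (hcomp : ∃ c : ℝ, 0 < c ∧ ∃ᶠ Q : ℕ in atTop,
          c * (∑ q ∈ Finset.Icc 1 Q, ψ q) ≤
            ∑ q ∈ Finset.Icc 1 Q, (Nat.totient q : ℝ) * ψ q / (q : ℝ)) :
      volume {x : ℝ | x ∈ Set.Icc (0 : ℝ) 1 ∧
          ∃ᶠ q : ℕ in atTop, ∃ p : ℤ, Int.gcd p (q : ℤ) = 1 ∧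
            |(q : ℝ) * x - (p : ℝ) - γ| < ψ q} = 1 :=
  Pool.Agent.H20G.a6_final Pool.Agent.H20G.block_thm γ hγ ψ hψ hdiv hcomp

/-- Every `γ ≠ 0` and every `ψ ≥ 0` which satisfies the comparability condition with one constant
at infinitely many `Q` satisfy the Duffin–Schaeffer statement. -/
theorem result (γ : ℝ) (hγ : γ ≠ 0) (ψ : ℕ → ℝ) (hψ : ∀ q : ℕ, 0 ≤ ψ q)
    (hcomp : ∃ C : ℝ, 0 < C ∧ {Q : ℕ | ∑ q ∈ Finset.Icc 1 Q, ψ q ≤
      C * ∑ q ∈ Finset.Icc 1 Q, (Nat.totient q : ℝ) * ψ q / (q : ℝ)}.Infinite) :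
    (∑' q : ℕ, volume (E' γ ψ q) < ∞ → volume (limsup (E' γ ψ) atTop) = 0) ∧
    (∑' q : ℕ, volume (E' γ ψ q) = ∞ → volume (limsup (E' γ ψ) atTop) = 1) := by
  constructor
  · intro hs
    exact measure_limsup_atTop_eq_zero hs.ne
  · intro hs
    have hdiv : ¬ Summable (fun q : ℕ => (Nat.totient q : ℝ) * ψ q / (q : ℝ)) := by
      intro hsum
      have hnn : ∀ q : ℕ, 0 ≤ 6 * ((Nat.totient q : ℝ) * ψ q / (q : ℝ)) := fun q =>
        mul_nonneg (by norm_num) (div_nonneg (mul_nonneg (Nat.cast_nonneg _) (hψ q))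
          (Nat.cast_nonneg _))
      have h1 : ∑' q : ℕ, volume (E' γ ψ q) ≤
          ∑' q : ℕ, ENNReal.ofReal (6 * ((Nat.totient q : ℝ) * ψ q / (q : ℝ))) :=
        ENNReal.tsum_le_tsum fun q => vol_E γ ψ hψ q
      rw [← ENNReal.ofReal_tsum_of_nonneg hnn (hsum.mul_left 6)] at h1
      rw [hs] at h1
      exact absurd h1 (not_le.2 ENNReal.ofReal_lt_top)
    obtain ⟨C, hC, hinf⟩ := hcomp
    have hc : ∃ c : ℝ, 0 < c ∧ ∃ᶠ Q : ℕ in atTop,
          c * (∑ q ∈ Finset.Icc 1 Q, ψ q) ≤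
            ∑ q ∈ Finset.Icc 1 Q, (Nat.totient q : ℝ) * ψ q / (q : ℝ) := by
      refine ⟨C⁻¹, inv_pos.2 hC, ?_⟩
      rw [Nat.frequently_atTop_iff_infinite]
      refine hinf.mono fun Q hQ => ?_
      have hQ' : ∑ q ∈ Finset.Icc 1 Q, ψ q ≤
        C * ∑ q ∈ Finset.Icc 1 Q, (Nat.totient q : ℝ) * ψ q / (q : ℝ) := hQ
      exact (inv_mul_le_iff₀ hC).2 hQ'
    have hmain := core γ hγ ψ hψ hdiv hc
    apply le_antisymm
    · calc volume (limsup (E' γ ψ) atTop)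
          ≤ volume (Set.Icc (0 : ℝ) 1) := by
            refine measure_mono fun x hx => ?_
            rw [mem_limsup_iff_frequently_mem] at hx
            obtain ⟨q, hq⟩ := hx.exists
            exact hq.1
        _ = 1 := by rw [Real.volume_Icc]; norm_num
    · rw [← hmain]
      refine measure_mono fun x hx => ?_
      obtain ⟨hx01, hfreq⟩ := hx
      have hfreq' : ∃ᶠ q : ℕ in atTop, x ∈ E' γ ψ q := by
        refine (hfreq.and_eventually (eventually_ge_atTop 1)).mono ?_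
        rintro q ⟨⟨p, hp, hlt⟩, hq1⟩
        have hq0 : (0 : ℤ) < (q : ℤ) := by exact_mod_cast hq1
        have hqR : (0 : ℝ) < (q : ℝ) := by exact_mod_cast hq1
        refine ⟨hx01, (p % (q : ℤ)).toNat, ?_, ?_, ?_⟩
        · have h1 := Int.emod_lt_of_pos p hq0
          have h2 := Int.emod_nonneg p hq0.ne'
          omega
        · have h2 := Int.emod_nonneg p hq0.ne'
          have h3 : (((p % (q : ℤ)).toNat : ℕ) : ℤ) = p % (q : ℤ) := Int.toNat_of_nonneg h2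
          have h4 : Int.gcd (p % (q : ℤ)) (q : ℤ) = 1 := by
            have h5 : p = p % (q : ℤ) + (p / (q : ℤ)) * (q : ℤ) := by
              have := Int.emod_add_mul_ediv p (q : ℤ)
              linarith
            rw [h5, Int.gcd_add_mul_right_left] at hp
            exact hp
          have h5 : Int.gcd (((p % (q : ℤ)).toNat : ℕ) : ℤ) (q : ℤ) = 1 := by rw [h3]; exact h4
          rw [Int.gcd_natCast_natCast] at h5
          exact h5
        · have h2 := Int.emod_nonneg p hq0.ne'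
          have h3 : ((((p % (q : ℤ)).toNat : ℕ) : ℤ) : ℝ) = ((p % (q : ℤ) : ℤ) : ℝ) := by
            rw [Int.toNat_of_nonneg h2]
          have h3' : (((p % (q : ℤ)).toNat : ℕ) : ℝ) = ((p % (q : ℤ) : ℤ) : ℝ) := by
            rw [← h3]; norm_cast
          rw [h3']
          have h4 : ((p % (q : ℤ) : ℤ) : ℝ) = (p : ℝ) - (q : ℝ) * ((p / (q : ℤ) : ℤ) : ℝ) := by
            have h5 : p % (q : ℤ) = p - (q : ℤ) * (p / (q : ℤ)) := Int.emod_def p (q : ℤ)
            rw [h5]; push_cast; ring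
          rw [h4]
          have h6 : x - ((p : ℝ) - (q : ℝ) * ((p / (q : ℤ) : ℤ) : ℝ) + γ) / (q : ℝ) =
              ((q : ℝ) * x - (p : ℝ) - γ) / (q : ℝ) + ((p / (q : ℤ) : ℤ) : ℝ) := by
            field_simp
            ring
          rw [h6]
          refine le_trans (round_le _ (p / (q : ℤ))) ?_
          rw [add_sub_cancel_right, abs_div, abs_of_pos hqR]
          exact div_le_div_of_nonneg_right hlt.le hqR.le
      rw [mem_limsup_iff_frequently_mem]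
      exact hfreq'

end Pool.Agent.Results.MP_9f8062_nt.InhomogeneousDS
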