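import Mathlib
import Pool.Agent.Lib.Helper20.DS.Main

/-! The inhomogeneous Duffin-Schaeffer statement fails without the comparability condition, for
every nonzero rational `γ` (with one and the same `ψ`) and for a residual set of real `γ`.

Idea. Let `N` be a product of distinct primes and `ψ q = q / N` for the divisors `q > 1` of `N`.
The points `(a + g) / q` with `a` prime to `q` are the points `k / N` such that, with
`s = gcd (k, N)` and `u = k / s`, some divisor `t` of `s` has `u t - g` prime to `N / s`. On average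
over `k` there is one such pair `(q, a)`, but the average is carried by few `k` with many prime
factors of `N`; a square root moment bound shows that the proportion of covered `k` is at most
`∏ (1 - (3/2 - √2) / p)`, which is small when `∑ 1 / p` is large. Blocks of primes with growing
`∑ 1 / p` give `ψ`. -/

namespace Pool.Agent.Results.MP_9f8062_nt.NoComparability

open MeasureTheory Filter

theorem result :
    (∃ ψ : ℕ → ℝ, (∀ q, 0 ≤ ψ q) ∧
      ¬ Summable (fun q : ℕ => (Nat.totient q : ℝ) * ψ q / q) ∧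
      ∀ γ : ℚ, γ ≠ 0 → volume {x : ℝ | x ∈ Set.Icc (0 : ℝ) 1 ∧ ∃ᶠ q : ℕ in atTop,
        ∃ p : ℤ, IsCoprime p (q : ℤ) ∧ |(q : ℝ) * x - p - γ| ≤ ψ q} = 0) ∧
    {γ : ℝ | ∃ ψ : ℕ → ℝ, (∀ q, 0 ≤ ψ q) ∧
      ¬ Summable (fun q : ℕ => (Nat.totient q : ℝ) * ψ q / q) ∧
      volume {x : ℝ | x ∈ Set.Icc (0 : ℝ) 1 ∧ ∃ᶠ q : ℕ in atTop,
        ∃ p : ℤ, IsCoprime p (q : ℤ) ∧ |(q : ℝ) * x - p - γ| ≤ ψ q} = 0} ∈ residual ℝ :=
  Pool.Agent.H20.DS.main

end Pool.Agent.Results.MP_9f8062_nt.NoComparability
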